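import Pool.Agent.Helper23.DV.Ub
import Pool.Agent.Helper41.DV.H8
import Pool.Agent.Helper97.DV.Un

/-!
# Project DV (MP_973bc8_pr): the final statement without a bound on the lattice domains
-/

open Filter Topology MeasureTheory ProbabilityTheory RP4

namespace DV

open GF (Pl Cc md Tst En Kc UpN lin gm)

/-- INPUT: the upper half for domains in a fixed ball, king connected outside -/
def UpGen (hd : Deloc) : Prop :=
  ∀ (Ω : Set Pl) (D : ℝ → Finset V) (R : ℝ), IsOpen Ω → Bornology.IsBounded Ω →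
    (∀ᶠ δ in 𝓝[>] (0 : ℝ), KO (D δ)) → (∀ᶠ δ in 𝓝[>] (0 : ℝ), ∀ x ∈ D δ, ‖pt δ x‖ ≤ R) →
    (∀ Q, IsCompact Q → Q ⊆ Ω → ∀ᶠ δ in 𝓝[>] (0 : ℝ), ∀ x, pt δ x ∈ Q → x ∈ D δ) →
    (∀ z ∈ frontier Ω, ∀ ε > 0, ∀ᶠ δ in 𝓝[>] (0 : ℝ), ∃ x, x ∉ D δ ∧ dist (pt δ x) z < ε) →
    ∀ f, Tst Ω f → (∀ z, 0 ≤ f z) → ∀ n, ∃ C : ℕ → ℝ, ∀ ε > 0, ∀ U : Ultrafilter ℝ,
      (U : Filter ℝ) ≤ 𝓝[>] 0 → UpN (Kc hd) Ω D f n C ε U

theorem upIn_of_upGen {hd : Deloc} (h : UpGen hd) : UpIn hd := by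
  intro Ω D hΩ hb hD f hf hf0 n
  obtain ⟨R, hR⟩ := hD.bounded
  exact h Ω D R hΩ hb (by
    filter_upwards [self_mem_nhdsWithin] with δ hδ
    exact ko_of_even (hD.even δ hδ)) hR (fun Q hQ hQΩ => hD.inner Q hQ hQΩ)
    (fun z hz ε hε => hD.outer z hz ε hε) f hf hf0 n

private lemma md_zero {D : ℝ → Finset V} {f : Pl → ℝ} (hf : ∀ z, f z = 0) {δ : ℝ}
    (hD : BdryPar (D δ) 0) (n : ℕ) : md D f n δ = 0 ^ (2 * n) := by
  have h1 : ∀ h : V → ℤ, lin (D δ) (wt δ f) h = 0 := by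
    intro h
    unfold lin wt
    refine Finset.sum_eq_zero fun x _ => ?_
    rw [hf, mul_zero, zero_mul]
  have h2 : ((Om (D δ)).card : ℝ) ≠ 0 := by
    have := (RP4.Om_nonempty hD).card_pos
    positivity
  rw [md_lin]
  unfold avg
  simp only [h1, Finset.sum_const, nsmul_eq_mul]
  field_simp

/-- convergence of the even moments for nonnegative test functions, no bound on the domains -/
theorem mom_unb (hd : Deloc) (hfam : FamIn hd) (hup : UpGen hd) {Ω : Set Pl} {D : ℝ → Finset V}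
    (hΩ : IsOpen Ω) (hb : Bornology.IsBounded Ω) (heven : ∀ δ > 0, GF.Fin.EvenDomain (D δ))
    (hinner : ∀ Q : Set Pl, IsCompact Q → Q ⊆ Ω → ∀ᶠ δ in 𝓝[>] (0 : ℝ), ∀ x, pt δ x ∈ Q → x ∈ D δ)
    (houter : ∀ z ∈ frontier Ω, ∀ ε > 0, ∀ᶠ δ in 𝓝[>] (0 : ℝ), ∃ x, x ∉ D δ ∧ dist (pt δ x) z < ε)
    {f : Pl → ℝ} (hf : Tst Ω f) (hf0 : ∀ z, 0 ≤ f z) (n : ℕ) :
    Tendsto (md D f n) (𝓝[>] (0 : ℝ)) (𝓝 (gm n * (Kc hd * En Ω f) ^ n)) := by
  have hK := GF.Kc_pos hd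
  have hko : ∀ᶠ δ in 𝓝[>] (0 : ℝ), KO (D δ) := by
    filter_upwards [self_mem_nhdsWithin] with δ hδ
    exact ko_of_even (heven δ hδ)
  have hpar : ∀ᶠ δ in 𝓝[>] (0 : ℝ), BdryPar (D δ) 0 := hko.mono fun δ h => h.par
  have hδ1 : ∀ᶠ δ in 𝓝[>] (0 : ℝ), δ < 1 := mem_nhdsWithin_of_mem_nhds (gt_mem_nhds one_pos)
  obtain ⟨R0, hR0⟩ := hb.exists_norm_le
  have hfR : ∀ z, f z ≠ 0 → ‖z‖ ≤ R0 := fun z hz => hR0 z (hf.sub (subset_tsupport f hz))
  -- the cut domains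
  have hcut : ∀ M, R0 + 1 ≤ M → ∀ e > 0, ∀ᶠ δ in 𝓝[>] (0 : ℝ),
      md (fun δ => cutD M δ (D δ)) f n δ ≤ gm n * (Kc hd * En Ω f) ^ n + e ∧
      gm n * (Kc hd * En Ω f) ^ n - e ≤ md (fun δ => cutD M δ (D δ)) f n δ := by
    intro M hM e he
    have h1 : ∀ᶠ δ in 𝓝[>] (0 : ℝ), KO (cutD M δ (D δ)) := by
      filter_upwards [hko, self_mem_nhdsWithin] with δ h hδ
      exact ko_cutD hδ h
    have h2 : ∀ᶠ δ in 𝓝[>] (0 : ℝ), ∀ x ∈ cutD M δ (D δ), ‖pt δ x‖ ≤ M :=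
      Eventually.of_forall fun δ x hx => (mem_cutD hx).2
    have h3 : ∀ Q, IsCompact Q → Q ⊆ Ω → ∀ᶠ δ in 𝓝[>] (0 : ℝ), ∀ x, pt δ x ∈ Q → x ∈ cutD M δ (D δ) :=
      fun Q hQ hQΩ => inner_cutD hpar (hinner Q hQ hQΩ) fun z hz => by linarith [hR0 z (hQΩ hz)]
    have h4 : ∀ z ∈ frontier Ω, ∀ ε > 0, ∀ᶠ δ in 𝓝[>] (0 : ℝ), ∃ x, x ∉ cutD M δ (D δ) ∧
        dist (pt δ x) z < ε := by
      intro z hz ε hε
      filter_upwards [houter z hz ε hε] with δ h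
      obtain ⟨x, hx, hx'⟩ := h
      exact ⟨x, fun h => hx (cutD_sub M δ (D δ) h), hx'⟩
    have hup' := hup Ω (fun δ => cutD M δ (D δ)) M hΩ hb h1 h2 h3 h4 f hf hf0 n
    obtain ⟨C, hC⟩ := lo_half hd hb (D := fun δ => cutD M δ (D δ)) (h1.mono fun δ h => h.par) h2 h3
      (fun _ hK hKΩ => exists_pol_fil (fil_of_even hΩ heven hinner houter) hΩ hK hKΩ)
      (fun k S h => outDom h) hfam exists_decay hf hf0
    have hlo := GF.ge_of_loN hK (n := n) ⟨C, fun ε hε U hU => (hC ε hε U hU).loN hε n⟩ he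
    filter_upwards [GF.le_of_upN hK hup' he, hlo] with δ h5 h6
    exact ⟨h5, h6⟩
  rw [Metric.tendsto_nhds]
  intro e he
  rcases (frontier Ω).eq_empty_or_nonempty with hfr | ⟨z0, hz0⟩
  · -- the empty set
    have hΩe : Ω = ∅ := by
      rcases isClopen_iff.1 (isClopen_iff_frontier_eq_empty.2 hfr) with h | h
      · exact h
      · exfalso
        have h1 := hR0 (R0 + 1, 0) (by rw [h]; trivial)
        have h2 : |R0 + 1| ≤ ‖((R0 + 1, 0) : Pl)‖ := norm_fst_le ((R0 + 1, 0) : Pl)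
        linarith [le_abs_self (R0 + 1)]
    have hf00 : ∀ z, f z = 0 := by
      intro z
      by_contra h
      have h1 := hf.sub (subset_tsupport f h)
      rw [hΩe] at h1
      exact h1
    filter_upwards [hcut (R0 + 1) le_rfl (e / 2) (half_pos he), hpar] with δ h1 h2
    rw [md_zero hf00 (cutD_par _ δ (D δ))] at h1
    rw [md_zero hf00 h2, Real.dist_eq, abs_lt]
    constructor <;> linarith [h1.1, h1.2]
  · obtain ⟨c, K, n0, hc, hc1, -, -, hLP⟩ := exists_LP1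
    have hz : ∀ᶠ δ in 𝓝[>] (0 : ℝ), ∃ z, z ∉ D δ ∧ ‖pt δ z‖ ≤ ‖z0‖ + 1 := by
      filter_upwards [houter z0 hz0 1 one_pos] with δ h
      obtain ⟨x, hx, hx'⟩ := h
      refine ⟨x, hx, ?_⟩
      rw [dist_eq_norm] at hx'
      have := norm_sub_norm_le (pt δ x) z0
      linarith
    obtain ⟨M₀, hM₀⟩ := md_cut hLP hc (by linarith) hf.toCc hf0 hko hz n (half_pos (half_pos he))
    obtain ⟨M, hM⟩ : ∃ M, M = max M₀ (R0 + 1) := ⟨_, rfl⟩
    have hMM₀ : M₀ ≤ M := by rw [hM]; exact le_max_left _ _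
    have hMR : R0 + 1 ≤ M := by rw [hM]; exact le_max_right _ _
    filter_upwards [hM₀ M hMM₀, hcut M hMR (e / 4) (by linarith), hpar, hδ1, self_mem_nhdsWithin]
      with δ h1 h2 h3 h4 h5
    have h5' : 0 < δ := h5
    have h6 := md_cut_le h3 hf0 (δ := δ) (M := M) h5'.le hfR (by linarith) n
    rw [← md_lin D f n δ] at h6
    have h7 : md (fun δ => cutD M δ (D δ)) f n δ =
      avg (Om (cutD M δ (D δ))) (fun h => lin (cutD M δ (D δ)) (wt δ f) h ^ (2 * n)) :=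
      md_lin (fun δ => cutD M δ (D δ)) f n δ
    rw [← h7] at h6
    rw [Real.dist_eq, abs_lt]
    constructor <;> linarith [h2.1, h2.2]

end DV

namespace GF.Fin

/-- The even domains `D δ`, mesh `δ`, approximate `Ω` as `δ → 0`: every compact subset of `Ω` is eventually
covered, and every boundary point of `Ω` is a limit of lattice points outside the domains. -/
structure Approx (D : ℝ → Finset Vertex) (Ω : Set Plane) : Prop where
  even : ∀ δ > 0, EvenDomain (D δ)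
  inner : ∀ Q : Set Plane, IsCompact Q → Q ⊆ Ω → ∀ᶠ δ in 𝓝[>] (0 : ℝ), ∀ x, point δ x ∈ Q → x ∈ D δ
  outer : ∀ z ∈ frontier Ω, ∀ ε > 0, ∀ᶠ δ in 𝓝[>] (0 : ℝ), ∃ x, x ∉ D δ ∧ dist (point δ x) z < ε

/-- the final statement without a bound on the lattice domains -/
theorem final_unb (hfam : DV.FamIn GF.deloc) (hup : DV.UpGen GF.deloc) :
    ∃ κ : ℝ, 0 < κ ∧ ∀ (Ω : Set Plane) (D : ℝ → Finset Vertex), IsOpen Ω → Bornology.IsBounded Ω →
      Approx D Ω → ∀ (m : ℕ) (f : Fin m → Plane → ℝ), (∀ i, Test Ω (f i)) →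
      (covariance κ Ω f).PosSemidef ∧
      (∀ G, IsGreenFunction Ω G → ∀ i j,
        covariance κ Ω f i j = κ ^ 2 * ∫ x, ∫ y, f i x * G x y * f j y) ∧
      ∀ φ : EuclideanSpace ℝ (Fin m) → ℝ, Continuous φ →
        (∃ (C : ℝ) (k : ℕ), ∀ v, |φ v| ≤ C * (1 + ‖v‖) ^ k) →
        Integrable φ (multivariateGaussian 0 (covariance κ Ω f)) ∧
        Tendsto (fun δ => Mean (D δ) fun h => φ (pairings δ (D δ) f h)) (𝓝[>] 0)
          (𝓝 (∫ v, φ v ∂(multivariateGaussian 0 (covariance κ Ω f)))) := by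
  obtain ⟨K, hKK⟩ : ∃ K, K = GF.Kc GF.deloc := ⟨_, rfl⟩
  have hK : 0 < K := by
    rw [hKK]
    exact GF.Kc_pos GF.deloc
  refine ⟨Real.sqrt K, Real.sqrt_pos.2 hK, fun Ω D hΩ hb hD m f hf => ?_⟩
  have hcov : covariance (Real.sqrt K) Ω f = gramD K Ω f := by
    ext i j
    unfold covariance gramD
    rw [Matrix.of_apply, Matrix.of_apply, Real.sq_sqrt hK.le, greenForm_eq]
  have hpar : ∀ δ > 0, ∀ v ∈ Boundary (D δ), Even (v.1 + v.2) := by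
    intro δ hδ
    obtain ⟨n, c, -, -, -, -, h⟩ := hD.even δ hδ
    exact h
  have hpar' : ∀ᶠ δ in 𝓝[>] (0 : ℝ), RP4.BdryPar (D δ) 0 := by
    filter_upwards [self_mem_nhdsWithin] with δ hδ
    exact (bdryPar_iff _).2 (hpar δ hδ)
  obtain ⟨h1, h2⟩ := law_of_mom hK hΩ hb hpar' (fun f hf hf0 n => by
    rw [hKK]
    exact DV.mom_unb GF.deloc hfam hup hΩ hb hD.even (fun Q hQ hQΩ => hD.inner Q hQ hQΩ)
      (fun z hz ε hε => hD.outer z hz ε hε) hf hf0 n) f fun j => test_iff.1 (hf j)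
  rw [hcov]
  refine ⟨h1, fun G hG i j => ?_, fun φ hφ hg => ?_⟩
  · unfold gramD
    rw [Matrix.of_apply, Real.sq_sqrt hK.le]
    congr 1
    have hp : ∀ i, Pot Ω (f i) (fun x => ∫ y, G x y * f i y) := by
      intro i
      obtain ⟨a, b, c, d⟩ := hG _ (hf i)
      exact ⟨a, b, c, d⟩
    rw [Gr_pot hΩ hb (test_iff.1 (hf i)) (test_iff.1 (hf j)) (hp i) (hp j)]
    refine integral_congr_ae (Eventually.of_forall fun x => ?_)
    simp only [mul_assoc]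
    rw [integral_const_mul]
  · obtain ⟨h3, h4⟩ := h2 φ hφ hg
    refine ⟨h3, h4.congr' ?_⟩
    filter_upwards [self_mem_nhdsWithin] with δ hδ
    rw [mean_eq (hpar δ hδ)]
    congr 1
    funext h
    rw [pairings_eq]

end GF.Fin
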