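import Pool.Agent.Helper97.DV.To
import Pool.Agent.Helper12.DV.L2
import Pool.Agent.Helper78.SW.Lv
import Pool.Agent.Helper78.SW.Qt
import Pool.Agent.Helper41.DV.H2b

/-!
# Project DV (MP_973bc8_pr): domains which are not bounded

`cutD M δ D` is the part of `D` at distance at most `M` from the origin (mesh `δ`).  For functions
`f ≥ 0` the moments of the pairing with `f` in `D` are at most those in `cutD M δ D` plus an error
which tends to `0` as `M → ∞`, uniformly in `δ`.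
-/

open Finset RP4 Filter Topology

namespace DV

open GF (Pl Cc md prD lin)

open Classical in
/-- the part of `D` at distance at most `M` from the origin, without the odd boundary sites -/
noncomputable def cutD (M δ : ℝ) (D : Finset V) : Finset V := evn (D.filter fun x => ‖pt δ x‖ ≤ M)

lemma cutD_par (M δ : ℝ) (D : Finset V) : BdryPar (cutD M δ D) 0 := evn_par _

lemma mem_cutD {M δ : ℝ} {D : Finset V} {x : V} (hx : x ∈ cutD M δ D) : x ∈ D ∧ ‖pt δ x‖ ≤ M := by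
  classical
  have h := (mem_evn.1 hx).1
  exact Finset.mem_filter.1 h

lemma cutD_sub (M δ : ℝ) (D : Finset V) : cutD M δ D ⊆ D := fun _ hx => (mem_cutD hx).1

lemma norm_pt_adj {δ : ℝ} (hδ : 0 ≤ δ) {u v : V} (h : Adj u v) : ‖pt δ u‖ ≤ ‖pt δ v‖ + δ := by
  have h1 := pt_dist (δ := δ) h
  rw [abs_of_nonneg hδ, dist_eq_norm] at h1
  have h2 := norm_sub_norm_le (pt δ u) (pt δ v)
  linarith

lemma core_cutD {M δ : ℝ} {D : Finset V} (hD : BdryPar D 0) (hδ : 0 ≤ δ) {v : V} (hv : v ∈ core D)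
    (h : ‖pt δ v‖ + 2 * δ ≤ M) : v ∈ core (cutD M δ D) := by
  classical
  set D' := D.filter fun x => ‖pt δ x‖ ≤ M with hD'
  have mD' : ∀ x, x ∈ D' ↔ x ∈ D ∧ ‖pt δ x‖ ≤ M := fun x => Finset.mem_filter
  have hvD := SW.mem_core.1 hv
  have hnb : ∀ u, Adj u v → u ∈ D' ∧ ‖pt δ u‖ + δ ≤ M := by
    intro u hu
    have h1 := norm_pt_adj hδ hu
    exact ⟨(mD' u).2 ⟨SW.core_nb hv (adj_symm hu), by linarith⟩, by linarith⟩
  have hv1 : v ∈ D' := (mD' v).2 ⟨hvD.1, by linarith⟩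
  have hv2 : v ∉ bdry D' := by
    intro hb
    obtain ⟨-, u, hu, hu'⟩ := mem_bdry.1 hb
    exact hu' (hnb u hu).1
  have hv3 : v ∈ evn D' := mem_evn.2 ⟨hv1, Or.inr hv2⟩
  refine SW.mem_core.2 ⟨hv3, fun hb => ?_⟩
  obtain ⟨-, u, hu, hu'⟩ := mem_bdry.1 hb
  refine hu' (mem_evn.2 ⟨(hnb u hu).1, ?_⟩)
  by_cases hev : Even (par u)
  · exact Or.inl hev
  · refine Or.inr fun hub => ?_
    obtain ⟨-, w, hw, hw'⟩ := mem_bdry.1 hub
    have huD : u ∈ D := ((mD' u).1 (hnb u hu).1).1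
    have hwD : w ∈ D := by
      by_contra hwD
      have h2 := hD u (mem_bdry.2 ⟨huD, w, hw, hwD⟩)
      rw [sub_zero] at h2
      exact hev h2
    have h3 := norm_pt_adj hδ hw
    exact hw' ((mD' w).2 ⟨hwD, by linarith [(hnb u hu).2]⟩)

/-- a path of nonzero heights in `D` from the support of the weight `w` to the outside of the interior
of `D'` -/
def Esc (D D' : Finset V) (w : V → ℝ) (g : V → ℤ) : Prop :=
  ∃ x ∈ D, w x ≠ 0 ∧ ∃ v ∈ D, v ∉ core D' ∧ Con (nz g ∩ (D : Set V)) x v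

lemma dec_not_esc (D D' : Finset V) (w : V → ℝ) : Dec fun g => ¬ Esc D D' w g := by
  refine ⟨fun g => ?_, fun g g' h0 hle h => ?_⟩
  · unfold Esc
    rw [SW.nz_abs]
  · rintro ⟨x, hx, hw, v, hv, hv', hc⟩
    exact h ⟨x, hx, hw, v, hv, hv', hc.mono (fun _ _ h => h)
      (Set.inter_subset_inter_left _ (SW.nz_mono h0 hle))⟩

lemma esc_loc {D D' : Finset V} {w : V → ℝ} {g g' : V → ℤ} (h : ∀ x ∈ D, g x = g' x) :
    ¬ Esc D D' w g ↔ ¬ Esc D D' w g' := by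
  have e : nz g ∩ (D : Set V) = nz g' ∩ (D : Set V) := by
    ext x
    constructor
    · rintro ⟨h1, h2⟩
      refine ⟨?_, h2⟩
      show g' x ≠ 0
      rw [← h x h2]
      exact h1
    · rintro ⟨h1, h2⟩
      refine ⟨?_, h2⟩
      show g x ≠ 0
      rw [h x h2]
      exact h1
  unfold Esc
  rw [e]

lemma esc_blk {D D' : Finset V} (hsub : D' ⊆ D) {w : V → ℝ} {g : V → ℤ} (h : ¬ Esc D D' w g) {x : V}
    (hx : x ∈ D) (hw : w x ≠ 0) {v : V} (hv : v ∉ core D') : ¬ Conn g x v := by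
  intro hc
  have hc' : Con (nz g) x v := SW.conn_con hc
  by_cases hxc : x ∈ core D'
  · obtain ⟨a, b, hj, hab, -, ha, hb, hb'⟩ := Jn.exit (A := (core D' : Set V)) hc' hxc (fun h => hv h)
    have hbD : b ∈ D := hsub (SW.core_nb ha hab)
    refine h ⟨x, hx, hw, b, hbD, fun h => hb' h, ?_⟩
    have h1 : Con (nz g ∩ (D : Set V)) x a :=
      hj.mono (fun _ _ h => h) (fun y hy => ⟨hy.1, hsub (SW.mem_core.1 hy.2).1⟩)
    exact h1.step hab ⟨hb, hbD⟩
  · exact h ⟨x, hx, hw, x, hx, hxc, Jn.refl ⟨hc'.left, hx⟩⟩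

/-- the part without an escape -/
lemma cut_up {D D' : Finset V} (hD' : BdryPar D' 0) (hsub : D' ⊆ D) {w : V → ℝ} (hw : ∀ x, 0 ≤ w x)
    (n : ℕ) : avg (Om D) (fun h => (open Classical in if ¬ Esc D D' w h then lin D w h ^ (2 * n) else 0)) ≤
      avg (Om D') (fun h => lin D w h ^ (2 * n)) := by
  classical
  have h1 := SW.lev_upper (n := 2 * n) (D := D') (D' := D) (s := D) (m := fun _ => w)
    (E := fun g => ¬ Esc D D' w g) hD' hsub (Finset.Subset.refl D) (fun _ x => hw x)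
    (dec_not_esc D D' w) (fun g g' h => esc_loc h)
    (fun g hg i x hx hm v hv => esc_blk hsub hg hx hm hv) 0
  simp only [lev_zero, Finset.prod_const, Finset.card_univ, Fintype.card_fin] at h1
  have h2 : ∀ h : V → ℤ, SW.lo D w h = lin D w h := fun h => rfl
  simp only [h2] at h1
  have h3 : ∑ h ∈ Om D, (if ¬ Esc D D' w h then (1 : ℝ) else 0) ≤ (Om D).card := by
    refine (Finset.sum_le_card_nsmul _ _ 1 fun h _ => ?_).trans (by simp)
    split_ifs <;> norm_num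
  have h4 : 0 ≤ avg (Om D') (fun h => lin D w h ^ (2 * n)) := by
    unfold avg
    refine div_nonneg (Finset.sum_nonneg fun h _ => ?_) (Nat.cast_nonneg _)
    rw [pow_mul]
    positivity
  have h5 := h1.trans (mul_le_mul_of_nonneg_left h3 h4)
  have h6 : avg (Om D) (fun h => if ¬ Esc D D' w h then lin D w h ^ (2 * n) else 0) =
      (∑ h ∈ Om D, (if ¬ Esc D D' w h then lin D w h ^ (2 * n) else 0)) / (Om D).card := rfl
  rw [h6]
  rcases Nat.eq_zero_or_pos (Om D).card with h7 | h7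
  · rw [h7, Nat.cast_zero, div_zero]
    exact h4
  · have h8 : (0 : ℝ) < (Om D).card := by exact_mod_cast h7
    rw [div_le_iff₀ h8]
    exact h5

/-- Cauchy-Schwarz on the event of an escape -/
lemma cut_cs (D D' : Finset V) (w : V → ℝ) (n : ℕ) :
    avg (Om D) (fun h => (open Classical in if Esc D D' w h then lin D w h ^ (2 * n) else 0)) ≤
      Real.sqrt (avg (Om D) (fun h => |lin D w h| ^ (4 * n))) * Real.sqrt (pr (Om D) (Esc D D' w)) := by
  classical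
  have h1 := Real.sum_mul_le_sqrt_mul_sqrt (Om D) (fun h => |lin D w h| ^ (2 * n))
    (fun h => if Esc D D' w h then (1 : ℝ) else 0)
  have e1 : ∀ h : V → ℤ, |lin D w h| ^ (2 * n) * (if Esc D D' w h then (1 : ℝ) else 0) =
      if Esc D D' w h then lin D w h ^ (2 * n) else 0 := by
    intro h
    split_ifs
    · rw [mul_one, pow_mul, pow_mul, sq_abs]
    · rw [mul_zero]
  have e2 : ∀ h : V → ℤ, (|lin D w h| ^ (2 * n)) ^ 2 = |lin D w h| ^ (4 * n) := by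
    intro h
    rw [← pow_mul]
    congr 1
    ring
  have e3 : ∀ h : V → ℤ, (if Esc D D' w h then (1 : ℝ) else 0) ^ 2 =
      if Esc D D' w h then (1 : ℝ) else 0 := by
    intro h
    split_ifs <;> norm_num
  simp only [e1, e2, e3] at h1
  have hc : (0 : ℝ) ≤ (Om D).card := Nat.cast_nonneg _
  have e4 : Real.sqrt (avg (Om D) (fun h => |lin D w h| ^ (4 * n))) *
      Real.sqrt (pr (Om D) (Esc D D' w)) =
      (Real.sqrt (∑ h ∈ Om D, |lin D w h| ^ (4 * n)) *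
        Real.sqrt (∑ h ∈ Om D, (if Esc D D' w h then (1 : ℝ) else 0))) / (Om D).card := by
    unfold pr avg
    rw [Real.sqrt_div' _ hc, Real.sqrt_div' _ hc, div_mul_div_comm, Real.mul_self_sqrt hc]
  rw [e4]
  unfold avg
  exact div_le_div_of_nonneg_right h1 hc

/-- splitting of a moment -/
lemma cut_moment {D D' : Finset V} (hD' : BdryPar D' 0) (hsub : D' ⊆ D) {w : V → ℝ} (hw : ∀ x, 0 ≤ w x)
    (n : ℕ) : avg (Om D) (fun h => lin D w h ^ (2 * n)) ≤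
      avg (Om D') (fun h => lin D w h ^ (2 * n)) +
      Real.sqrt (avg (Om D) (fun h => |lin D w h| ^ (4 * n))) * Real.sqrt (pr (Om D) (Esc D D' w)) := by
  classical
  have h1 := cut_up hD' hsub hw n
  have h2 := cut_cs D D' w n
  have h3 : avg (Om D) (fun h => lin D w h ^ (2 * n)) =
      avg (Om D) (fun h => if ¬ Esc D D' w h then lin D w h ^ (2 * n) else 0) +
      avg (Om D) (fun h => if Esc D D' w h then lin D w h ^ (2 * n) else 0) := by
    unfold avg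
    rw [← add_div, ← Finset.sum_add_distrib]
    congr 1
    refine Finset.sum_congr rfl fun h _ => ?_
    by_cases h4 : Esc D D' w h <;> simp [h4]
  rw [h3]
  have e1 : avg (Om D) (fun h => if ¬ Esc D D' w h then lin D w h ^ (2 * n) else 0) =
      avg (Om D) (fun h => (open Classical in if ¬ Esc D D' w h then lin D w h ^ (2 * n) else 0)) := by
    congr!
  have e2 : avg (Om D) (fun h => if Esc D D' w h then lin D w h ^ (2 * n) else 0) =
      avg (Om D) (fun h => (open Classical in if Esc D D' w h then lin D w h ^ (2 * n) else 0)) := by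
    congr!
  rw [e1, e2]
  exact add_le_add h1 h2

/-- the probability of an escape -/
lemma pr_esc {c : ℝ} {K n0 : ℤ} (hLP : LP c K n0) (hc1 : c ≤ 2) {D : Finset V} (hD : KO D) {M δ : ℝ}
    (hδ : 0 ≤ δ) {z : V} (hz : z ∉ D) {w : V → ℝ} {r M' : ℤ} (hr : 1 ≤ r) (hzr : z ∈ Sq 0 r)
    (hw : ∀ x, w x ≠ 0 → x ∈ Sq 0 r) (hM : ∀ v ∈ Sq 0 M', ‖pt δ v‖ + 2 * δ ≤ M) (m : ℕ)
    (hm : (|n0| + 5) * (2 * |K| + 6) ^ m * r ≤ M') :
    pr (Om D) (Esc D (cutD M δ D) w) ≤ 2 * (1 - c / 2) ^ m := by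
  -- a far point
  have hinf : {v : V | M' < v.1}.Infinite := by
    refine Set.infinite_of_injective_forall_mem (f := fun j : ℕ => ((M' + 1 + j, 0) : V)) ?_ ?_
    · intro a b hab
      have h1 := congrArg Prod.fst hab
      simp only at h1
      omega
    · intro j
      show M' < M' + 1 + (j : ℤ)
      omega
  obtain ⟨z', hz', hz'D⟩ := hinf.exists_notMem_finset D
  have hz'M : z' ∉ Sq 0 M' := by
    rintro ⟨h1, -⟩
    have h2 : M' < z'.1 := hz'
    have h3 := le_abs_self (z'.1 - (0 : V).1)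
    have h4 : (0 : V).1 = 0 := rfl
    rw [h4] at h1 h3
    omega
  have hcon := hD.con z (Or.inl hz) z' (Or.inl hz'D)
  have h1 := pr_nz2 hLP hc1 (D := D) (Z := bdry D) (p := 0) (Finset.Subset.refl _) (bdry_subset D)
    (fun v hv => by
      have h2 := hD.par v hv
      rw [sub_zero] at h2
      rw [add_zero]
      exact h2) (x := 0) m hr hzr hz'M hcon hm
  refine (pr_mono fun h hh => ?_).trans h1
  rintro ⟨x, hx, hwx, v, hvD, hv, hc⟩
  refine ⟨x, hw x hwx, v, fun hvM => ?_, hc.mono (fun _ _ h => h) fun y hy => hy.1⟩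
  have hv0 : h v ≠ 0 := hc.right.1
  have hvc : v ∈ core D := by
    refine SW.mem_core.2 ⟨hvD, fun hb => hv0 ((mem_Om.1 hh).2 v hb)⟩
  exact hv (core_cutD hD.par hδ hvc (hM v hvM))

/-- the weight of the pairing -/
noncomputable def wt (δ : ℝ) (f : Pl → ℝ) (x : V) : ℝ := δ ^ 2 * f (pt δ x)

lemma prD_lin (δ : ℝ) (f : Pl → ℝ) (D : Finset V) (h : V → ℤ) : prD δ f D h = lin D (wt δ f) h := by
  unfold prD lin wt pt
  rw [Finset.mul_sum]
  exact Finset.sum_congr rfl fun x _ => by ring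

lemma md_lin (D : ℝ → Finset V) (f : Pl → ℝ) (n : ℕ) (δ : ℝ) :
    md D f n δ = avg (Om (D δ)) (fun h => lin (D δ) (wt δ f) h ^ (2 * n)) := by
  unfold md
  simp only [prD_lin]

/-- the moments in a subdomain -/
lemma md_sub {D D' : Finset V} (hsub : D' ⊆ D) (w : V → ℝ) (n : ℕ) :
    avg (Om D') (fun h => lin D w h ^ n) = avg (Om D') (fun h => lin D' w h ^ n) := by
  unfold avg
  congr 1
  refine Finset.sum_congr rfl fun h hh => ?_
  have e : lin D' w h = lin D w h := by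
    unfold lin
    apply Finset.sum_subset hsub
    intro x _ hx
    rw [(mem_Om.1 hh).1.off x hx, Int.cast_zero, mul_zero]
  simp only [e]

/-- the sum of the weights is bounded -/
lemma sum_wt {f : Pl → ℝ} {A R δ : ℝ} (hA : ∀ z, |f z| ≤ A) (hR : 0 ≤ R) (hf : ∀ z, f z ≠ 0 → ‖z‖ ≤ R)
    (hδ : 0 < δ) (hδ1 : δ ≤ 1) (D : Finset V) : ∑ x ∈ D, |wt δ f x| ≤ A * (2 * R + 1) ^ 2 := by
  classical
  have hA0 : 0 ≤ A := (abs_nonneg _).trans (hA 0)
  obtain ⟨N, hN⟩ : ∃ N : ℕ, N = ⌊R / δ⌋₊ := ⟨_, rfl⟩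
  have hNδ : (N : ℝ) * δ ≤ R := by
    have h1 : (N : ℝ) ≤ R / δ := by
      rw [hN]
      exact Nat.floor_le (by positivity)
    rwa [le_div_iff₀ hδ] at h1
  set B : Finset V := Finset.Icc (-(N : ℤ)) N ×ˢ Finset.Icc (-(N : ℤ)) N with hB
  have hcoord : ∀ a : ℤ, |δ * (a : ℝ)| ≤ R → a ∈ Finset.Icc (-(N : ℤ)) N := by
    intro a ha
    rw [abs_mul, abs_of_pos hδ, mul_comm] at ha
    have h1 : |(a : ℝ)| ≤ R / δ := by
      rw [le_div_iff₀ hδ]
      exact ha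
    have h2 : ((a.natAbs : ℕ) : ℝ) ≤ R / δ := by
      rw [Nat.cast_natAbs, Int.cast_abs]
      exact h1
    have h3 : a.natAbs ≤ N := by
      rw [hN]
      exact Nat.le_floor h2
    rw [Finset.mem_Icc]
    omega
  have hout : ∀ x, x ∉ B → wt δ f x = 0 := by
    intro x hx
    by_contra h0
    have h1 : f (pt δ x) ≠ 0 := by
      intro h1
      exact h0 (by unfold wt; rw [h1, mul_zero])
    have h2 := hf _ h1
    unfold pt at h2
    rw [Prod.norm_def, max_le_iff, Real.norm_eq_abs, Real.norm_eq_abs] at h2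
    exact hx (Finset.mem_product.2 ⟨hcoord _ h2.1, hcoord _ h2.2⟩)
  have h1 : ∑ x ∈ D, |wt δ f x| ≤ ∑ x ∈ B, |wt δ f x| := by
    have e := Finset.sum_filter_of_ne (s := D) (p := fun x => x ∈ B) (f := fun x => |wt δ f x|)
      (fun x _ hx => by
        by_contra hxB
        exact hx (by rw [hout x hxB, abs_zero]))
    rw [← e]
    exact Finset.sum_le_sum_of_subset_of_nonneg (fun x hx => (Finset.mem_filter.1 hx).2)
      fun x _ _ => abs_nonneg _
  have h2 : ∀ x ∈ B, |wt δ f x| ≤ δ ^ 2 * A := by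
    intro x _
    unfold wt
    rw [abs_mul, abs_of_nonneg (sq_nonneg δ)]
    exact mul_le_mul_of_nonneg_left (hA _) (sq_nonneg δ)
  have h3 : ∑ x ∈ B, |wt δ f x| ≤ B.card • (δ ^ 2 * A) := Finset.sum_le_card_nsmul _ _ _ h2
  have h4 : (B.card : ℝ) = (2 * (N : ℝ) + 1) ^ 2 := by
    rw [hB, Finset.card_product, Int.card_Icc]
    have : ((N : ℤ) + 1 - -(N : ℤ)).toNat = 2 * N + 1 := by omega
    rw [this]
    push_cast
    ring
  rw [nsmul_eq_mul, h4] at h3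
  refine h1.trans (h3.trans ?_)
  have h5 : (2 * (N : ℝ) + 1) * δ ≤ 2 * R + 1 := by nlinarith
  have h6 : 0 ≤ (2 * (N : ℝ) + 1) * δ := by positivity
  calc (2 * (N : ℝ) + 1) ^ 2 * (δ ^ 2 * A) = A * ((2 * (N : ℝ) + 1) * δ) ^ 2 := by ring
    _ ≤ A * (2 * R + 1) ^ 2 := by gcongr

/-- the basic estimate, one value of `δ` -/
lemma cut_one {c : ℝ} {K n0 : ℤ} (hLP : LP c K n0) (hc1 : c ≤ 2) {f : Pl → ℝ} (hf0 : ∀ z, 0 ≤ f z)
    {R : ℝ} (hR : 0 ≤ R) (hf : ∀ z, f z ≠ 0 → ‖z‖ ≤ R) {D : Finset V} (hD : KO D) {δ : ℝ} (hδ : 0 < δ)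
    (hδ1 : δ ≤ 1) {z : V} (hz : z ∉ D) (hzR : ‖pt δ z‖ ≤ R) (m : ℕ) {M : ℝ}
    (hM : (|(n0 : ℝ)| + 5) * (2 * |(K : ℝ)| + 6) ^ m * (R + 1) + 3 ≤ M) (n : ℕ) :
    avg (Om D) (fun h => lin D (wt δ f) h ^ (2 * n)) ≤
      avg (Om (cutD M δ D)) (fun h => lin (cutD M δ D) (wt δ f) h ^ (2 * n)) +
      Real.sqrt (avg (Om D) (fun h => |lin D (wt δ f) h| ^ (4 * n))) *
        Real.sqrt (2 * (1 - c / 2) ^ m) := by
  have hw : ∀ x, 0 ≤ wt δ f x := fun x => mul_nonneg (sq_nonneg δ) (hf0 _)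
  have h1 := cut_moment (cutD_par M δ D) (cutD_sub M δ D) hw n
  rw [md_sub (cutD_sub M δ D)] at h1
  refine h1.trans (add_le_add le_rfl (mul_le_mul_of_nonneg_left (Real.sqrt_le_sqrt ?_)
    (Real.sqrt_nonneg _)))
  set L : ℝ := (|(n0 : ℝ)| + 5) * (2 * |(K : ℝ)| + 6) ^ m with hL
  have hL0 : 0 ≤ L := by positivity
  have hLR : L * (R + 1) + 3 ≤ M := hM
  obtain ⟨r, hr⟩ : ∃ r : ℤ, r = ⌊R / δ⌋ + 1 := ⟨_, rfl⟩
  obtain ⟨M', hM'⟩ : ∃ M' : ℤ, M' = ⌊M / δ⌋ - 2 := ⟨_, rfl⟩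
  have hcoord : ∀ a : ℤ, |δ * (a : ℝ)| ≤ R → |a - 0| ≤ r := by
    intro a ha
    rw [abs_mul, abs_of_pos hδ, mul_comm] at ha
    have h1 : ((|a| : ℤ) : ℝ) ≤ R / δ := by
      rw [Int.cast_abs, le_div_iff₀ hδ]
      exact ha
    have h2 : |a| ≤ ⌊R / δ⌋ := Int.le_floor.2 h1
    rw [sub_zero, hr]
    omega
  have hball : ∀ x : V, ‖pt δ x‖ ≤ R → x ∈ Sq 0 r := by
    intro x hx
    unfold pt at hx
    rw [Prod.norm_def, max_le_iff, Real.norm_eq_abs, Real.norm_eq_abs] at hx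
    exact ⟨hcoord _ hx.1, hcoord _ hx.2⟩
  have hr1 : 1 ≤ r := by
    have : 0 ≤ ⌊R / δ⌋ := Int.floor_nonneg.2 (by positivity)
    omega
  refine pr_esc hLP hc1 hD hδ.le hz hr1 (hball z hzR) (fun x hx => hball x (hf _ fun h0 => hx ?_))
    (M' := M') (fun v hv => ?_) m ?_
  · unfold wt
    rw [h0, mul_zero]
  · have h3 : ∀ a : ℤ, |a - 0| ≤ M' → |δ * (a : ℝ)| ≤ M - 2 * δ := by
      intro a ha
      rw [sub_zero] at ha
      have h4 : ((|a| : ℤ) : ℝ) ≤ ((M' : ℤ) : ℝ) := by exact_mod_cast ha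
      rw [Int.cast_abs, hM'] at h4
      push_cast at h4
      have h5 : (⌊M / δ⌋ : ℝ) ≤ M / δ := Int.floor_le _
      have h6 : |(a : ℝ)| ≤ M / δ - 2 := by linarith
      rw [abs_mul, abs_of_pos hδ]
      have h7 : δ * |(a : ℝ)| ≤ δ * (M / δ - 2) := mul_le_mul_of_nonneg_left h6 hδ.le
      have h8 : δ * (M / δ - 2) = M - 2 * δ := by
        field_simp
      linarith
    have h4 : ‖pt δ v‖ ≤ M - 2 * δ := by
      unfold pt
      rw [Prod.norm_def, max_le_iff, Real.norm_eq_abs, Real.norm_eq_abs]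
      exact ⟨h3 _ hv.1, h3 _ hv.2⟩
    linarith
  · have h3 : (((|n0| + 5) * (2 * |K| + 6) ^ m * r : ℤ) : ℝ) ≤ ((M' : ℤ) : ℝ) := by
      push_cast
      have h4 : (r : ℝ) ≤ R / δ + 1 := by
        rw [hr]
        push_cast
        linarith [Int.floor_le (R / δ)]
      have h5 : M / δ - 3 ≤ (M' : ℝ) := by
        rw [hM']
        push_cast
        linarith [Int.lt_floor_add_one (M / δ)]
      have h6 : L * (R / δ + 1) ≤ M / δ - 3 := by
        have h7 : L * (R / δ + 1) * δ ≤ (M / δ - 3) * δ := by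
          have e1 : L * (R / δ + 1) * δ = L * (R + δ) := by
            field_simp
          have e2 : (M / δ - 3) * δ = M - 3 * δ := by
            field_simp
          rw [e1, e2]
          have h8 : L * (R + δ) ≤ L * (R + 1) := mul_le_mul_of_nonneg_left (by linarith) hL0
          linarith
        exact le_of_mul_le_mul_right h7 hδ
      calc (|(n0 : ℝ)| + 5) * (2 * |(K : ℝ)| + 6) ^ m * (r : ℝ) = L * r := rfl
        _ ≤ L * (R / δ + 1) := mul_le_mul_of_nonneg_left h4 hL0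
        _ ≤ M / δ - 3 := h6
        _ ≤ (M' : ℝ) := h5
    exact_mod_cast h3

/-- the error -/
private lemma err_tendsto {c : ℝ} (hc : 0 < c) (hc1 : c ≤ 2) :
    Tendsto (fun m : ℕ => Real.sqrt (2 * (1 - c / 2) ^ m)) atTop (𝓝 0) := by
  have h1 : Tendsto (fun m : ℕ => (1 - c / 2) ^ m) atTop (𝓝 0) :=
    tendsto_pow_atTop_nhds_zero_of_lt_one (by linarith) (by linarith)
  have h2 : Tendsto (fun m : ℕ => 2 * (1 - c / 2) ^ m) atTop (𝓝 0) := by
    simpa using h1.const_mul 2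
  have h3 := (Real.continuous_sqrt.tendsto 0).comp h2
  rw [Real.sqrt_zero] at h3
  exact h3

/-- the pairings in the cut domains are bounded -/
private lemma cut_bdd {f : Pl → ℝ} (hf : Cc f) (D : ℝ → Finset V) (M : ℝ) (n : ℕ) :
    ∃ B : ℝ, ∀ᶠ δ in 𝓝[>] (0 : ℝ), md (fun δ => cutD M δ (D δ)) f n δ ≤ B := by
  obtain ⟨C, hC⟩ := box_moments hf M n
  have h1 := md_close hf M n (D := fun δ => cutD M δ (D δ)) (Eventually.of_forall fun δ =>
    ⟨cutD_par M δ (D δ), fun x hx => (mem_cutD hx).2⟩)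
  refine ⟨C + 1, ?_⟩
  filter_upwards [hC, h1.eventually (gt_mem_nhds (zero_lt_one (α := ℝ)))] with δ h2 h3
  have h4 := h2 (cutD M δ (D δ)) (cutD_par M δ (D δ)) fun x hx => (mem_cutD hx).2
  linarith

/-- the moments in `D δ` are at most those in `cutD M δ (D δ)` plus an error which is small if `M` is
large, uniformly in `δ` -/
theorem md_cut {c : ℝ} {K n0 : ℤ} (hLP : LP c K n0) (hc : 0 < c) (hc1 : c ≤ 2) {f : Pl → ℝ}
    (hf : Cc f) (hf0 : ∀ z, 0 ≤ f z) {D : ℝ → Finset V} {R : ℝ}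
    (hko : ∀ᶠ δ in 𝓝[>] (0 : ℝ), KO (D δ))
    (hz : ∀ᶠ δ in 𝓝[>] (0 : ℝ), ∃ z, z ∉ D δ ∧ ‖pt δ z‖ ≤ R) (n : ℕ) {η : ℝ} (hη : 0 < η) :
    ∃ M₀ : ℝ, ∀ M ≥ M₀, ∀ᶠ δ in 𝓝[>] (0 : ℝ), md D f n δ ≤ md (fun δ => cutD M δ (D δ)) f n δ + η := by
  -- one radius
  obtain ⟨R', hR'0, hR'z, hfR⟩ : ∃ R' : ℝ, 0 ≤ R' ∧ R ≤ R' ∧ ∀ z, f z ≠ 0 → ‖z‖ ≤ R' := by
    obtain ⟨R1, hR1⟩ := hf.supp.isCompact.isBounded.exists_norm_le
    refine ⟨max (max R R1) 0, le_max_right _ _, (le_max_left _ _).trans (le_max_left _ _), ?_⟩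
    intro z hz
    exact (hR1 z (subset_tsupport f hz)).trans ((le_max_right _ _).trans (le_max_left _ _))
  obtain ⟨A, hA⟩ : ∃ A, ∀ z, |f z| ≤ A := by
    obtain ⟨M, hM⟩ := hf.smooth.continuous.bounded_above_of_compact_support hf.supp
    exact ⟨M, fun z => by simpa [Real.norm_eq_abs] using hM z⟩
  have hA0 : 0 ≤ A := (abs_nonneg _).trans (hA 0)
  set S : ℝ := A * (2 * R' + 1) ^ 2 with hS
  have hS0 : 0 ≤ S := by positivity
  obtain ⟨C4, hC40, hC4⟩ := GF.moments (4 * 1)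
  obtain ⟨Cn, hCn0, hCn⟩ := GF.moments (4 * n)
  have herr := err_tendsto hc hc1
  -- the first cut
  obtain ⟨m0, hm0⟩ : ∃ m : ℕ, Real.sqrt C4 * 2 * Real.sqrt (2 * (1 - c / 2) ^ m) ≤ 1 / 2 := by
    have h1 : Tendsto (fun m : ℕ => Real.sqrt C4 * 2 * Real.sqrt (2 * (1 - c / 2) ^ m)) atTop (𝓝 0) := by
      simpa using herr.const_mul (Real.sqrt C4 * 2)
    obtain ⟨m, hm⟩ := (h1.eventually (gt_mem_nhds (by norm_num : (0 : ℝ) < 1 / 2))).exists
    exact ⟨m, hm.le⟩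
  obtain ⟨B0, hB0⟩ := cut_bdd hf D
    ((|(n0 : ℝ)| + 5) * (2 * |(K : ℝ)| + 6) ^ m0 * (R' + 1) + 3) 1
  -- the second cut
  set Q : ℝ := Real.sqrt (Cn * (Real.sqrt (2 * B0 + S ^ 2) + S) ^ (4 * n)) with hQ
  obtain ⟨m, hm⟩ : ∃ m : ℕ, Q * Real.sqrt (2 * (1 - c / 2) ^ m) ≤ η := by
    have h1 : Tendsto (fun m : ℕ => Q * Real.sqrt (2 * (1 - c / 2) ^ m)) atTop (𝓝 0) := by
      simpa using herr.const_mul Q
    obtain ⟨m, hm⟩ := (h1.eventually (gt_mem_nhds hη)).exists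
    exact ⟨m, hm.le⟩
  refine ⟨(|(n0 : ℝ)| + 5) * (2 * |(K : ℝ)| + 6) ^ m * (R' + 1) + 3, fun M hM => ?_⟩
  have hδ1 : ∀ᶠ δ in 𝓝[>] (0 : ℝ), δ < 1 := mem_nhdsWithin_of_mem_nhds (gt_mem_nhds one_pos)
  filter_upwards [hko, hz, hδ1, hB0, self_mem_nhdsWithin] with δ hD hz hδ1 hB0 hδ
  obtain ⟨z, hzD, hzR⟩ := hz
  have hzR' : ‖pt δ z‖ ≤ R' := hzR.trans hR'z
  have hδ' : 0 < δ := hδ
  have hne : (Om (D δ)).Nonempty := RP4.Om_nonempty hD.par
  have hsum : ∑ x ∈ D δ, |wt δ f x| ≤ S := sum_wt hA hR'0 hfR hδ' hδ1.le (D δ)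
  set X : ℝ := avg (Om (D δ)) (fun h => lin (D δ) (wt δ f) h ^ 2) with hX
  have hX0 : 0 ≤ X := by
    rw [hX]
    unfold avg
    exact div_nonneg (Finset.sum_nonneg fun h _ => sq_nonneg _) (Nat.cast_nonneg _)
  have hb : ∀ k : ℕ, ∀ C : ℝ, 0 ≤ C → (∀ (D s : Finset V) (w : V → ℝ), (Om D).Nonempty →
      avg (Om D) (fun h => |lin s w h| ^ k) ≤
        C * (Real.sqrt (avg (Om D) (fun h => lin s w h ^ 2)) + ∑ x ∈ s, |w x|) ^ k) →
      avg (Om (D δ)) (fun h => |lin (D δ) (wt δ f) h| ^ k) ≤ C * (Real.sqrt X + S) ^ k := by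
    intro k C hC h
    refine (h (D δ) (D δ) (wt δ f) hne).trans ?_
    have h1 : 0 ≤ ∑ x ∈ D δ, |wt δ f x| := Finset.sum_nonneg fun x _ => abs_nonneg _
    have h2 := Real.sqrt_nonneg X
    rw [← hX]
    gcongr
  -- the second moment
  have hXB : X ≤ 2 * B0 + S ^ 2 := by
    have h1 := cut_one hLP hc1 hf0 hR'0 hfR hD hδ' hδ1.le hzD hzR' m0 le_rfl 1
    rw [md_lin] at hB0
    have h2 := hb (4 * 1) C4 hC40 hC4
    have h3 : Real.sqrt (avg (Om (D δ)) (fun h => |lin (D δ) (wt δ f) h| ^ (4 * 1))) ≤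
        Real.sqrt C4 * (2 * (X + S ^ 2)) := by
      refine (Real.sqrt_le_sqrt h2).trans ?_
      rw [Real.sqrt_mul hC40]
      refine mul_le_mul_of_nonneg_left ?_ (Real.sqrt_nonneg _)
      have e1 : (Real.sqrt X + S) ^ (4 * 1) = ((Real.sqrt X + S) ^ 2) ^ 2 := by ring
      rw [e1, Real.sqrt_sq (sq_nonneg _)]
      have e2 := Real.sq_sqrt hX0
      nlinarith [sq_nonneg (Real.sqrt X - S)]
    have h4 := mul_le_mul_of_nonneg_right h3 (Real.sqrt_nonneg (2 * (1 - c / 2) ^ m0))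
    have h5 : Real.sqrt C4 * (2 * (X + S ^ 2)) * Real.sqrt (2 * (1 - c / 2) ^ m0) =
        (Real.sqrt C4 * 2 * Real.sqrt (2 * (1 - c / 2) ^ m0)) * (X + S ^ 2) := by ring
    rw [h5] at h4
    have h6 := mul_le_mul_of_nonneg_right hm0 (by positivity : 0 ≤ X + S ^ 2)
    have h7 : X ≤ B0 + 1 / 2 * (X + S ^ 2) := by
      have e : X = avg (Om (D δ)) (fun h => lin (D δ) (wt δ f) h ^ (2 * 1)) := hX
      rw [e] at h4 h6 ⊢
      refine h1.trans ?_
      rw [← e] at h4 h6 ⊢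
      linarith
    linarith
  -- the other moments
  have h1 := cut_one hLP hc1 hf0 hR'0 hfR hD hδ' hδ1.le hzD hzR' m hM n
  rw [md_lin, md_lin]
  refine h1.trans (add_le_add le_rfl (le_trans ?_ hm))
  refine mul_le_mul_of_nonneg_right ?_ (Real.sqrt_nonneg _)
  rw [hQ]
  refine Real.sqrt_le_sqrt ((hb (4 * n) Cn hCn0 hCn).trans ?_)
  have h2 : Real.sqrt X ≤ Real.sqrt (2 * B0 + S ^ 2) := Real.sqrt_le_sqrt hXB
  have h3 := Real.sqrt_nonneg X
  gcongr

lemma mem_cutD_of {M δ : ℝ} {D : Finset V} (hD : BdryPar D 0) (hδ : 0 ≤ δ) {x : V} (hx : x ∈ D)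
    (h : ‖pt δ x‖ + δ ≤ M) : x ∈ cutD M δ D := by
  classical
  refine mem_evn.2 ⟨Finset.mem_filter.2 ⟨hx, by linarith⟩, ?_⟩
  by_cases hev : Even (par x)
  · exact Or.inl hev
  · refine Or.inr fun hb => ?_
    obtain ⟨-, u, hu, hu'⟩ := mem_bdry.1 hb
    have huD : u ∈ D := by
      by_contra huD
      have h2 := hD x (mem_bdry.2 ⟨hx, u, hu, huD⟩)
      rw [sub_zero] at h2
      exact hev h2
    have h3 := norm_pt_adj hδ hu
    exact hu' (Finset.mem_filter.2 ⟨huD, by linarith⟩)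

/-- monotonicity of the moments in the domain -/
theorem md_cut_le {D : Finset V} (hD : BdryPar D 0) {f : Pl → ℝ} (hf0 : ∀ z, 0 ≤ f z) {R M δ : ℝ}
    (hδ : 0 ≤ δ) (hf : ∀ z, f z ≠ 0 → ‖z‖ ≤ R) (hM : R + δ ≤ M) (n : ℕ) :
    avg (Om (cutD M δ D)) (fun h => lin (cutD M δ D) (wt δ f) h ^ (2 * n)) ≤
      avg (Om D) (fun h => lin D (wt δ f) h ^ (2 * n)) := by
  classical
  have hw : ∀ x, 0 ≤ wt δ f x := fun x => mul_nonneg (sq_nonneg δ) (hf0 _)
  have hsupp : ∀ x ∈ D, wt δ f x ≠ 0 → x ∈ cutD M δ D := by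
    intro x hx h0
    refine mem_cutD_of hD hδ hx ?_
    have h1 : ‖pt δ x‖ ≤ R := hf _ fun h1 => h0 (by unfold wt; rw [h1, mul_zero])
    linarith
  have h1 := SW.lev_lower_even (n := 2 * n) (D := cutD M δ D) (D' := D) (s := D)
    (m := fun _ => wt δ f) (E := fun _ => True) (even_two_mul n) (cutD_par M δ D) (cutD_sub M δ D)
    (Finset.Subset.refl D) (fun _ x => hw x) (fun _ _ _ _ => trivial) (fun _ _ _ => Iff.rfl)
    (fun _ x hx h0 => hsupp x hx h0) 0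
  simp only [lev_zero, Finset.prod_const, Finset.card_univ, Fintype.card_fin, if_true,
    Finset.sum_const, nsmul_eq_mul, mul_one] at h1
  have h2 : ∀ h : V → ℤ, SW.lo D (wt δ f) h = lin D (wt δ f) h := fun h => rfl
  simp only [h2] at h1
  rw [md_sub (cutD_sub M δ D)] at h1
  have h3 : (0 : ℝ) < (Om D).card := by exact_mod_cast (RP4.Om_nonempty hD).card_pos
  have h4 : avg (Om D) (fun h => lin D (wt δ f) h ^ (2 * n)) =
      (∑ h ∈ Om D, lin D (wt δ f) h ^ (2 * n)) / (Om D).card := rfl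
  rw [h4, le_div_iff₀ h3]
  exact h1

end DV
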