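import Pool.Agent.Helper94.BR.Geo
import Pool.Agent.Helper41.DV.Fin

/-!
# Project DV (MP_973bc8_pr): filled polyominoes

`Fil Ω`: the complement of a polyomino in `Ω` has no bounded component which meets the complement of `Ω`.  It follows
from `Approximates D Ω` (the boundaries of the domains are `×`-connected), and then there are polyominoes with
connected complement between a compact subset of `Ω` and `Ω`.
-/

open Set Metric RP4 Filter Topology
open GF (Pl)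

namespace DV

/-- every point outside `Ω` is in the unbounded component of the complement of every polyomino in `Ω` -/
def Fil (Ω : Set Pl) : Prop :=
  ∀ (k : ℕ) (S : Finset (ℤ × ℤ)), pol k S ⊆ Ω → ∀ x ∉ Ω, ∀ R : ℝ, ∃ y, R < dist y 0 ∧ JoinedIn (pol k S)ᶜ x y

/-- the centre of a cell -/
noncomputable def ctr (k : ℕ) (i : ℤ × ℤ) : Pl :=
  ((gx k i.1 + gx k (i.1 + 1)) / 2, (gx k i.2 + gx k (i.2 + 1)) / 2)

/-- the interior of a cell -/
noncomputable def cin (k : ℕ) (i : ℤ × ℤ) : Set Pl :=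
  Ioo (gx k i.1) (gx k (i.1 + 1)) ×ˢ Ioo (gx k i.2) (gx k (i.2 + 1))

lemma cin_sub_cel (k : ℕ) (i : ℤ × ℤ) : cin k i ⊆ cel k i :=
  prod_mono Ioo_subset_Icc_self Ioo_subset_Icc_self

lemma ctr_mem (k : ℕ) (i : ℤ × ℤ) : ctr k i ∈ cin k i := by
  have h1 := gx_lt_succ k i.1
  have h2 := gx_lt_succ k i.2
  unfold ctr cin
  rw [mem_prod, mem_Ioo, mem_Ioo]
  refine ⟨⟨?_, ?_⟩, ?_, ?_⟩ <;> simp only <;> linarith

lemma gx_lt {k : ℕ} {i j : ℤ} : gx k i < gx k j ↔ i < j := by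
  unfold gx
  have : (0 : ℝ) < 2 ^ k := by positivity
  rw [div_lt_div_iff_of_pos_right this]
  constructor
  · intro h
    have h1 : (i : ℝ) < j := by linarith
    exact_mod_cast h1
  · intro h
    have h1 : (i : ℝ) < j := by exact_mod_cast h
    linarith

lemma cin_disj {k : ℕ} {i j : ℤ × ℤ} {p : Pl} (h : p ∈ cin k i) (h' : p ∈ cel k j) : i = j := by
  unfold cin at h
  unfold cel at h'
  rw [mem_prod, mem_Ioo, mem_Ioo] at h
  rw [mem_prod, mem_Icc, mem_Icc] at h'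
  have a1 := gx_lt.1 (h.1.1.trans_le h'.1.2)
  have a2 := gx_lt.1 (h'.1.1.trans_lt h.1.2)
  have a3 := gx_lt.1 (h.2.1.trans_le h'.2.2)
  have a4 := gx_lt.1 (h'.2.1.trans_lt h.2.2)
  apply Prod.ext <;> omega

lemma cin_pol {k : ℕ} {S : Finset (ℤ × ℤ)} {i : ℤ × ℤ} {p : Pl} (h : p ∈ cin k i) :
    p ∈ pol k S ↔ i ∈ S := by
  constructor
  · intro hp
    unfold pol at hp
    rw [mem_iUnion₂] at hp
    obtain ⟨j, hj, hpj⟩ := hp
    rwa [cin_disj h hpj]
  · intro hi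
    exact cel_subset_pol hi (cin_sub_cel k i h)

lemma seg_ctr {k : ℕ} {i : ℤ × ℤ} {p : Pl} (hp : p ∈ cel k i) :
    ∀ q ∈ segment ℝ p (ctr k i), q = p ∨ q ∈ cin k i := by
  intro q hq
  rw [segment_eq_image] at hq
  obtain ⟨t, ht, rfl⟩ := hq
  rcases eq_or_lt_of_le ht.1 with h0 | h0
  · left
    rw [← h0]
    simp
  · right
    have h1 := gx_lt_succ k i.1
    have h2 := gx_lt_succ k i.2
    unfold cel at hp
    rw [mem_prod, mem_Icc, mem_Icc] at hp
    have ht1 := ht.2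
    unfold cin ctr
    rw [mem_prod, mem_Ioo, mem_Ioo]
    simp only [Prod.smul_mk, smul_eq_mul, Prod.fst_add, Prod.snd_add, Prod.smul_fst, Prod.smul_snd]
    refine ⟨⟨?_, ?_⟩, ?_, ?_⟩ <;>
      nlinarith [mul_nonneg (sub_nonneg.2 ht1) (sub_nonneg.2 hp.1.1),
        mul_nonneg (sub_nonneg.2 ht1) (sub_nonneg.2 hp.1.2),
        mul_nonneg (sub_nonneg.2 ht1) (sub_nonneg.2 hp.2.1),
        mul_nonneg (sub_nonneg.2 ht1) (sub_nonneg.2 hp.2.2),
        mul_pos h0 (sub_pos.2 h1), mul_pos h0 (sub_pos.2 h2)]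

lemma join_ctr {k : ℕ} {i : ℤ × ℤ} {p : Pl} {U : Set Pl} (hp : p ∈ cel k i) (hpU : p ∈ U)
    (hU : cin k i ⊆ U) : JoinedIn U p (ctr k i) := by
  refine JoinedIn.of_segment_subset fun q hq => ?_
  rcases seg_ctr hp q hq with h | h
  · rw [h]
    exact hpU
  · exact hU h

lemma cin_compl {k : ℕ} {S : Finset (ℤ × ℤ)} {i : ℤ × ℤ} (hi : i ∉ S) : cin k i ⊆ (pol k S)ᶜ :=
  fun _ hp hp' => hi ((cin_pol hp).1 hp')

/-- the outside of a ball is path connected -/
lemma far_joined {R : ℝ} (hR : 0 ≤ R) {y y' : Pl} (hy : R < ‖y‖) (hy' : R < ‖y'‖) :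
    JoinedIn {z : Pl | R < ‖z‖} y y' := by
  have hrk : 1 < Module.rank ℝ Pl := by
    have h : Module.rank ℝ (ℝ × ℝ) = 2 := by
      rw [rank_prod', Module.rank_self]
      norm_num
    show 1 < Module.rank ℝ (ℝ × ℝ)
    rw [h]
    norm_num
  have hpc := isPathConnected_compl_singleton_of_one_lt_rank hrk (0 : Pl)
  have hy0 : y ∈ ({0}ᶜ : Set Pl) := by
    rw [mem_compl_singleton_iff, ← norm_pos_iff]
    linarith
  have hy0' : y' ∈ ({0}ᶜ : Set Pl) := by
    rw [mem_compl_singleton_iff, ← norm_pos_iff]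
    linarith
  have hj := hpc.joinedIn y hy0 y' hy0'
  obtain ⟨m, hm⟩ : ∃ m : ℝ, m = min ‖y‖ ‖y'‖ := ⟨_, rfl⟩
  have hmR : R < m := by rw [hm]; exact lt_min hy hy'
  have hcont : ContinuousOn (fun z : Pl => (max m ‖z‖ / ‖z‖) • z) ({0}ᶜ : Set Pl) := by
    refine ContinuousOn.smul (ContinuousOn.div (continuous_const.max continuous_norm).continuousOn
      continuous_norm.continuousOn fun z hz => ?_) continuousOn_id
    rw [mem_compl_singleton_iff, ← norm_pos_iff] at hz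
    exact hz.ne'
  have h1 := hj.map_continuousOn hcont
  have e : ∀ z : Pl, m ≤ ‖z‖ → R < ‖z‖ → (max m ‖z‖ / ‖z‖) • z = z := by
    intro z hz hz'
    rw [max_eq_right hz, div_self (by linarith), one_smul]
  rw [e y (by rw [hm]; exact min_le_left _ _) hy, e y' (by rw [hm]; exact min_le_right _ _) hy'] at h1
  refine h1.mono ?_
  rintro _ ⟨z, hz, rfl⟩
  rw [mem_compl_singleton_iff, ← norm_pos_iff] at hz
  show R < ‖(max m ‖z‖ / ‖z‖) • z‖
  rw [norm_smul, norm_div, norm_norm, div_mul_cancel₀ _ hz.ne', Real.norm_eq_abs]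
  exact hmR.trans_le ((le_max_left _ _).trans (le_abs_self _))

/-- FILLED POLYOMINOES between a compact set and the open set `Ω`. -/
theorem exists_pol_fil {Ω K : Set Pl} (hF : Fil Ω) (hΩ : IsOpen Ω) (hK : IsCompact K) (hKΩ : K ⊆ Ω) :
    ∃ (k : ℕ) (S : Finset (ℤ × ℤ)), ∃ ρ > 0, K ⊆ pol k S ∧ cthickening ρ (pol k S) ⊆ Ω ∧
      IsConnected (pol k S)ᶜ ∧ ∀ x ∈ K, ∀ p ∈ frontier (pol k S), ρ ≤ dist x p := by
  classical
  obtain ⟨k, S, ρ, hρ, h1, h2, h3⟩ := exists_pol hK hΩ hKΩ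
  have hPΩ : pol k S ⊆ Ω := (self_subset_cthickening _).trans h2
  obtain ⟨R0, hR0, hPR⟩ : ∃ R0 : ℝ, 0 ≤ R0 ∧ ∀ p ∈ pol k S, ‖p‖ ≤ R0 := by
    obtain ⟨R, hR⟩ := (pol_compact k S).isBounded.exists_norm_le
    exact ⟨max R 0, le_max_right _ _, fun p hp => (hR p hp).trans (le_max_left _ _)⟩
  have hfarU : {z : Pl | R0 < ‖z‖} ⊆ (pol k S)ᶜ := fun z hz hz' => absurd (hPR z hz') (not_le.2 hz)
  obtain ⟨O, hO⟩ : ∃ O : Set Pl, O = {y | ∀ R : ℝ, ∃ y', R < dist y' 0 ∧ JoinedIn (pol k S)ᶜ y y'} :=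
    ⟨_, rfl⟩
  have hmem : ∀ y, y ∈ O ↔ ∀ R : ℝ, ∃ y', R < dist y' 0 ∧ JoinedIn (pol k S)ᶜ y y' := by
    intro y
    rw [hO]
    exact Iff.rfl
  have O1 : O ⊆ (pol k S)ᶜ := by
    intro y hy
    obtain ⟨y', _, h⟩ := (hmem y).1 hy 0
    exact h.source_mem
  have O2 : ∀ y ∈ O, ∀ z, JoinedIn (pol k S)ᶜ y z → z ∈ O := by
    intro y hy z hz
    rw [hmem]
    intro R
    obtain ⟨y', hy', h⟩ := (hmem y).1 hy R
    exact ⟨y', hy', hz.symm.trans h⟩
  have O3 : ∀ y : Pl, R0 < ‖y‖ → y ∈ O := by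
    intro y hy
    rw [hmem]
    intro R
    have hn : ‖((|R| + R0 + 1, 0) : Pl)‖ = |R| + R0 + 1 := by
      rw [Prod.norm_def]
      simp only [norm_zero, Real.norm_eq_abs]
      have : 0 ≤ |R| + R0 + 1 := by positivity
      rw [abs_of_nonneg this]
      exact max_eq_left this
    refine ⟨(|R| + R0 + 1, 0), ?_, (far_joined hR0 hy ?_).mono hfarU⟩
    · rw [dist_zero_right, hn]
      linarith [le_abs_self R]
    · rw [hn]
      linarith [abs_nonneg R]
  have O4 : ∀ y ∈ O, ∀ y' ∈ O, JoinedIn (pol k S)ᶜ y y' := by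
    intro y hy y' hy'
    obtain ⟨z, hz, h⟩ := (hmem y).1 hy R0
    obtain ⟨z', hz', h'⟩ := (hmem y').1 hy' R0
    rw [dist_zero_right] at hz hz'
    exact h.trans (((far_joined hR0 hz hz').mono hfarU).trans h'.symm)
  have O5 : IsPathConnected O := by
    have hy0 : ((R0 + 1, 0) : Pl) ∈ O := by
      refine O3 _ ?_
      rw [Prod.norm_def]
      refine lt_max_of_lt_left ?_
      rw [Real.norm_eq_abs]
      exact lt_of_lt_of_le (by linarith) (le_abs_self _)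
    have e : O = pathComponentIn (pol k S)ᶜ ((R0 + 1, 0) : Pl) := by
      ext z
      exact ⟨fun hz => O4 _ hy0 _ hz, fun hz => O2 _ hy0 _ hz⟩
    rw [e]
    exact isPathConnected_pathComponentIn (O1 hy0)
  -- the cells whose centre is not in `O`
  have hfin : {i : ℤ × ℤ | ctr k i ∉ O}.Finite := by
    refine (cel_finite k (isBounded_closedBall (x := (0 : Pl)) (r := R0))).subset ?_
    intro i hi
    refine ⟨ctr k i, cin_sub_cel k i (ctr_mem k i), ?_⟩
    rw [mem_closedBall, dist_zero_right]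
    by_contra hlt
    exact hi (O3 _ (not_le.1 hlt))
  obtain ⟨S', hS'⟩ : ∃ S' : Finset (ℤ × ℤ), ∀ i, i ∈ S' ↔ ctr k i ∉ O :=
    ⟨hfin.toFinset, fun i => by rw [Set.Finite.mem_toFinset]; exact Iff.rfl⟩
  have hSS' : S ⊆ S' := by
    intro i hi
    rw [hS']
    exact fun h => O1 h (cel_subset_pol hi (cin_sub_cel k i (ctr_mem k i)))
  have hPP : pol k S ⊆ pol k S' := by
    unfold pol
    exact biUnion_subset_biUnion_left hSS'
  -- `O` is disjoint from the filled polyomino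
  have hcell : ∀ (y : Pl) (i : ℤ × ℤ), y ∉ pol k S → y ∈ cel k i → (y ∈ O ↔ ctr k i ∈ O) := by
    intro y i hy hyi
    have hi : i ∉ S := fun hi => hy (cel_subset_pol hi hyi)
    have hj := join_ctr hyi (U := (pol k S)ᶜ) hy (cin_compl hi)
    exact ⟨fun h => O2 _ h _ hj, fun h => O2 _ h _ hj.symm⟩
  have hOP : O ⊆ (pol k S')ᶜ := by
    intro y hy hy'
    unfold pol at hy'
    rw [mem_iUnion₂] at hy'
    obtain ⟨i, hi, hyi⟩ := hy'
    exact (hS' i).1 hi ((hcell y i (O1 hy) hyi).1 hy)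
  have hconn : IsPathConnected (pol k S')ᶜ := by
    obtain ⟨y0, hy0, hy0'⟩ := O5
    refine ⟨y0, hOP hy0, fun {y} hy => ?_⟩
    obtain ⟨i, hyi⟩ := exists_cel k y
    have hi : i ∉ S' := fun hi => hy (cel_subset_pol hi hyi)
    have hc : ctr k i ∈ O := by
      by_contra h
      exact hi ((hS' i).2 h)
    exact ((hy0' hc).mono hOP).trans (join_ctr hyi hy (cin_compl hi)).symm
  have hP'Ω : pol k S' ⊆ Ω := by
    intro y hy
    by_contra hyΩ
    unfold pol at hy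
    rw [mem_iUnion₂] at hy
    obtain ⟨i, hi, hyi⟩ := hy
    have hyP : y ∉ pol k S := fun h => hyΩ (hPΩ h)
    exact (hS' i).1 hi ((hcell y i hyP hyi).1 ((hmem y).2 (hF k S hPΩ y hyΩ)))
  obtain ⟨ρ', hρ', hth⟩ := (pol_compact k S').exists_cthickening_subset_open hΩ hP'Ω
  refine ⟨k, S', min ρ ρ', lt_min hρ hρ', h1.trans hPP,
    (cthickening_mono (min_le_right _ _) _).trans hth, hconn.isConnected, fun x hx p hp => ?_⟩
  refine (min_le_left _ _).trans ?_
  by_contra hlt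
  push Not at hlt
  have hball : ball x ρ ⊆ pol k S := by
    intro y hy
    by_contra hyP
    obtain ⟨q, hq, hqd⟩ := frontier_segment (h1 hx) hyP
    have h4 := h3 x hx q hq
    rw [mem_ball, dist_comm] at hy
    linarith
  have h5 : p ∈ interior (pol k S') := by
    refine mem_interior.2 ⟨ball x ρ, hball.trans hPP, isOpen_ball, ?_⟩
    rw [mem_ball, dist_comm]
    exact hlt
  exact hp.2 h5

/-! ### approximated open sets -/

/-- a circuit which meets a set and its complement has a step from the set to the complement -/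
lemma circ_step {D : Finset V} (hD : GF.Fin.EvenDomain D) {A : Set V} {b b' : V}
    (hb : b ∈ GF.Fin.Boundary D) (hbA : b ∈ A) (hb' : b' ∈ GF.Fin.Boundary D) (hbA' : b' ∉ A) :
    ∃ c c' : V, c ∈ GF.Fin.Boundary D ∧ Dia c c' ∧ c ∈ A ∧ c' ∉ A := by
  obtain ⟨n, c, hn, hcn, hst, hbd, hev⟩ := hD
  rw [hbd] at hb hb'
  obtain ⟨i, hi, rfl⟩ := hb
  obtain ⟨j, hj, rfl⟩ := hb'
  have hin : ∀ l < n, c l ∈ GF.Fin.Boundary D := fun l hl => by
    rw [hbd]
    exact ⟨l, hl, rfl⟩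
  have hdia : ∀ l < n, Dia (c l) (c (l + 1)) := fun l hl => hst l hl
  rcases le_total i j with hij | hij
  · obtain ⟨l, hl1, hl2, hl3, hl4⟩ : ∃ l, i ≤ l ∧ l < j ∧ c l ∈ A ∧ c (l + 1) ∉ A := by
      by_contra hcon
      push Not at hcon
      have h : ∀ d, i + d ≤ j → c (i + d) ∈ A := by
        intro d
        induction d with
        | zero => exact fun _ => hbA
        | succ d ih => exact fun hd => hcon (i + d) (by omega) (by omega) (ih (by omega))
      have := h (j - i) (by omega)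
      rw [show i + (j - i) = j by omega] at this
      exact hbA' this
    exact ⟨c l, c (l + 1), hin l (by omega), hdia l (by omega), hl3, hl4⟩
  · obtain ⟨l, hl1, hl2, hl3, hl4⟩ : ∃ l, j ≤ l ∧ l < i ∧ c l ∉ A ∧ c (l + 1) ∈ A := by
      by_contra hcon
      push Not at hcon
      have h : ∀ d, j + d ≤ i → c (j + d) ∉ A := by
        intro d
        induction d with
        | zero => exact fun _ => hbA'
        | succ d ih =>
          exact fun hd => hcon (j + d) (by omega) (by omega) (ih (by omega))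
      have := h (i - j) (by omega)
      rw [show j + (i - j) = i by omega] at this
      exact this hbA
    exact ⟨c (l + 1), c l, hin (l + 1) (by omega), dia_symm (hdia l (by omega)), hl4, hl3⟩

lemma pt_dia {δ : ℝ} {u v : V} (h : Dia u v) : dist (pt δ u) (pt δ v) ≤ |δ| := by
  have h1 : |(u.1 : ℝ) - v.1| ≤ 1 := by exact_mod_cast h.1.le
  have h2 : |(u.2 : ℝ) - v.2| ≤ 1 := by exact_mod_cast h.2.le
  unfold pt
  rw [Prod.dist_eq, max_le_iff, Real.dist_eq, Real.dist_eq, ← mul_sub, ← mul_sub, abs_mul, abs_mul]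
  exact ⟨mul_le_of_le_one_right (abs_nonneg δ) h1, mul_le_of_le_one_right (abs_nonneg δ) h2⟩

/-- a step that leaves the component `H` of the complement of `P` passes `P` -/
lemma leave_comp {P : Set Pl} {x y y' : Pl} (hy : JoinedIn Pᶜ x y) (hy' : ¬ JoinedIn Pᶜ x y') :
    ∃ p ∈ P, dist y p ≤ dist y y' ∧ dist y' p ≤ dist y y' := by
  by_contra hcon
  push Not at hcon
  refine hy' (hy.trans (JoinedIn.of_segment_subset fun p hp hpP => ?_))
  have h1 := segment_subset_closedBall_left y y' hp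
  have h2 := segment_subset_closedBall_right y y' hp
  rw [mem_closedBall, dist_comm] at h1
  rw [mem_closedBall, dist_comm] at h2
  exact absurd (hcon p hpP h1) (not_lt.2 h2)

/-- a frontier point of `Ω` in the component -/
lemma frontier_in_comp {Ω P : Set Pl} (hΩ : IsOpen Ω) (hP : IsCompact P) (hPΩ : P ⊆ Ω) {x y : Pl} (hx : x ∉ Ω)
    (hy : ¬ JoinedIn Pᶜ x y) : ∃ z ∈ frontier Ω, JoinedIn Pᶜ x z := by
  obtain ⟨γ, hγ⟩ : ∃ γ : ℝ → Pl, γ = fun t => AffineMap.lineMap x y t := ⟨_, rfl⟩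
  have hγc : Continuous γ := by
    rw [hγ]
    exact AffineMap.lineMap_continuous
  have hγ0 : γ 0 = x := by rw [hγ]; simp
  have hγ1 : γ 1 = y := by rw [hγ]; simp
  have hseg : ∀ t ∈ Icc (0 : ℝ) 1, segment ℝ x (γ t) ⊆ γ '' Icc 0 t := by
    intro t ht q hq
    rw [segment_eq_image_lineMap] at hq
    obtain ⟨s, hs, rfl⟩ := hq
    refine ⟨s * t, ⟨mul_nonneg hs.1 ht.1, mul_le_of_le_one_left ht.1 hs.2⟩, ?_⟩
    rw [hγ]
    simp only [AffineMap.lineMap_apply, vsub_eq_sub, vadd_eq_add, add_sub_cancel_right, smul_smul]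
  -- the first point of `P`
  have hT : (Icc (0 : ℝ) 1 ∩ γ ⁻¹' P).Nonempty := by
    by_contra hcon
    rw [not_nonempty_iff_eq_empty] at hcon
    refine hy (JoinedIn.of_segment_subset fun q hq hqP => ?_)
    rw [← hγ1] at hq
    obtain ⟨s, hs, rfl⟩ := hseg 1 ⟨zero_le_one, le_rfl⟩ hq
    have : s ∈ Icc (0 : ℝ) 1 ∩ γ ⁻¹' P := ⟨hs, hqP⟩
    rw [hcon] at this
    exact this
  have hTc : IsCompact (Icc (0 : ℝ) 1 ∩ γ ⁻¹' P) :=
    isCompact_Icc.inter_right (hP.isClosed.preimage hγc)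
  obtain ⟨t1, ⟨ht1, ht1P⟩, hmin⟩ := hTc.exists_isLeast hT
  have hbef : ∀ t, 0 ≤ t → t < t1 → JoinedIn Pᶜ x (γ t) := by
    intro t h0 h1
    refine JoinedIn.of_segment_subset fun q hq hqP => ?_
    obtain ⟨s, hs, rfl⟩ := hseg t ⟨h0, h1.le.trans ht1.2⟩ hq
    have : t1 ≤ s := hmin ⟨⟨hs.1, hs.2.trans (h1.le.trans ht1.2)⟩, hqP⟩
    linarith [hs.2]
  -- the last point outside `Ω` before
  have hT2 : (Icc (0 : ℝ) t1 ∩ γ ⁻¹' Ωᶜ).Nonempty := ⟨0, ⟨le_rfl, ht1.1⟩, by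
    show γ 0 ∈ Ωᶜ
    rw [hγ0]
    exact hx⟩
  have hT2c : IsCompact (Icc (0 : ℝ) t1 ∩ γ ⁻¹' Ωᶜ) :=
    isCompact_Icc.inter_right (hΩ.isClosed_compl.preimage hγc)
  obtain ⟨t2, ⟨ht2, ht2Ω⟩, hmax⟩ := hT2c.exists_isGreatest hT2
  have ht21 : t2 < t1 := by
    rcases ht2.2.lt_or_eq with h | h
    · exact h
    · exact absurd (hPΩ ht1P) (by rw [← h]; exact ht2Ω)
  refine ⟨γ t2, ?_, hbef t2 ht2.1 ht21⟩
  rw [hΩ.frontier_eq]
  refine ⟨?_, ht2Ω⟩
  have h3 : ∀ t ∈ Ioc t2 t1, γ t ∈ Ω := by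
    intro t ht
    by_contra h
    have : t ≤ t2 := hmax ⟨⟨ht2.1.trans ht.1.le, ht.2⟩, h⟩
    linarith [ht.1]
  have h4 : Tendsto γ (𝓝[>] t2) (𝓝 (γ t2)) := (hγc.tendsto t2).mono_left nhdsWithin_le_nhds
  refine mem_closure_of_tendsto h4 ?_
  filter_upwards [Ioc_mem_nhdsGT ht21] with t ht
  exact h3 t ht

/-- APPROXIMATED SETS HAVE NO HOLES. -/
theorem fil_of_even {D : ℝ → Finset V} {Ω : Set Pl} (hΩ : IsOpen Ω)
    (heven : ∀ δ > 0, GF.Fin.EvenDomain (D δ))
    (hinner : ∀ Q : Set Pl, IsCompact Q → Q ⊆ Ω → ∀ᶠ δ in 𝓝[>] (0 : ℝ), ∀ x, pt δ x ∈ Q → x ∈ D δ)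
    (houter : ∀ z ∈ frontier Ω, ∀ ε > 0, ∀ᶠ δ in 𝓝[>] (0 : ℝ), ∃ x, x ∉ D δ ∧ dist (pt δ x) z < ε) :
    Fil Ω := by
  intro k S hPΩ x hx R
  by_contra hcon
  push Not at hcon
  obtain ⟨P, hP⟩ : ∃ P, P = pol k S := ⟨_, rfl⟩
  rw [← hP] at hPΩ hcon
  have hPc : IsCompact P := by rw [hP]; exact pol_compact k S
  -- a far point
  have hfar : ∀ z : Pl, R < ‖z‖ → ¬ JoinedIn Pᶜ x z := fun z hz h =>
    hcon z (by rw [dist_zero_right]; exact hz) h
  obtain ⟨z0, hz0, hxz0⟩ : ∃ z ∈ frontier Ω, JoinedIn Pᶜ x z := by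
    refine frontier_in_comp hΩ hPc hPΩ hx (y := (|R| + 1, 0)) (hfar _ ?_)
    rw [Prod.norm_def]
    refine lt_max_of_lt_left ?_
    rw [Real.norm_eq_abs]
    exact lt_of_lt_of_le (by linarith [le_abs_self R]) (le_abs_self _)
  -- a ball in the component
  obtain ⟨ε', hε', hball⟩ := Metric.isOpen_iff.1 hPc.isClosed.isOpen_compl z0 hxz0.target_mem
  have hball' : ∀ z ∈ ball z0 ε', JoinedIn Pᶜ x z := by
    intro z hz
    refine hxz0.trans (JoinedIn.of_segment_subset ?_)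
    exact ((convex_ball z0 ε').segment_subset (mem_ball_self hε') hz).trans hball
  obtain ⟨ε, hε, hεΩ⟩ := hPc.exists_cthickening_subset_open hΩ hPΩ
  have hQ : IsCompact (cthickening ε P) := hPc.cthickening
  -- choose `δ`
  have hev1 := hinner _ hQ hεΩ
  have hev2 := houter z0 hz0 ε' hε'
  have hev3 : ∀ᶠ δ in 𝓝[>] (0 : ℝ), δ < ε / 3 :=
    (Iio_mem_nhds (show (0 : ℝ) < ε / 3 by positivity)) |> fun h => nhdsWithin_le_nhds h
  obtain ⟨δ, ⟨⟨hin, v, hvD, hvz⟩, hδε⟩, hδ0⟩ := ((hev1.and hev2).and hev3 |>.and self_mem_nhdsWithin).exists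
  replace hδ0 : 0 < δ := hδ0
  have habs : |δ| = δ := abs_of_pos hδ0
  have hin' : ∀ u : V, ∀ p ∈ P, dist (pt δ u) p ≤ 2 * δ → u ∈ D δ := by
    intro u p hp hd
    exact hin u (mem_cthickening_of_dist_le _ p _ _ hp (hd.trans (by linarith)))
  -- the set of the sites in the component
  obtain ⟨A, hA⟩ : ∃ A : Set V, A = {u | JoinedIn Pᶜ x (pt δ u)} := ⟨_, rfl⟩
  have hAmem : ∀ u, u ∈ A ↔ JoinedIn Pᶜ x (pt δ u) := fun u => by rw [hA]; exact Iff.rfl
  have hvA : v ∈ A := (hAmem v).2 (hball' _ (by rw [mem_ball]; exact hvz))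
  -- the row
  obtain ⟨w, hw⟩ : ∃ w : ℕ → V, w = fun j : ℕ => ((v.1 + (j : ℤ), v.2) : ℤ × ℤ) := ⟨_, rfl⟩
  have hw0 : w 0 = v := by rw [hw]; simp
  have hwadj : ∀ j, Adj (w j) (w (j + 1)) := by
    intro j
    rw [hw]
    unfold Adj
    push_cast
    rw [show v.1 + (j : ℤ) - (v.1 + ((j : ℤ) + 1)) = -1 by ring]
    simp
  have hstep : ∀ j, w j ∈ A → w (j + 1) ∉ A → w j ∈ D δ ∧ w (j + 1) ∈ D δ := by
    intro j h1 h2
    obtain ⟨p, hp, h3, h4⟩ := leave_comp ((hAmem _).1 h1) (fun h => h2 ((hAmem _).2 h))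
    have h5 := pt_dist (δ := δ) (hwadj j)
    rw [habs] at h5
    exact ⟨hin' _ p hp (by linarith), hin' _ p hp (by linarith)⟩
  have hfarw : ∃ j0 : ℕ, ∀ j ≥ j0, w j ∉ A := by
    obtain ⟨N, hN⟩ := exists_nat_ge ((|R| + 1) / δ + |(v.1 : ℝ)|)
    refine ⟨N, fun j hj h => hfar _ ?_ ((hAmem _).1 h)⟩
    have hj' : (N : ℝ) ≤ j := by exact_mod_cast hj
    have e : pt δ (w j) = (δ * (v.1 + j), δ * v.2) := by
      rw [hw]
      unfold pt
      push_cast
      rfl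
    rw [e, Prod.norm_def]
    refine lt_max_of_lt_left ?_
    rw [Real.norm_eq_abs]
    refine lt_of_lt_of_le ?_ (le_abs_self _)
    have h6 : (|R| + 1) / δ ≤ v.1 + j := by
      have := neg_abs_le (v.1 : ℝ)
      linarith
    rw [div_le_iff₀ hδ0] at h6
    linarith [le_abs_self R]
  -- the last exit
  obtain ⟨j0, hj0, hj0A, hj0A'⟩ : ∃ j0 : ℕ, w j0 ∈ A ∧ w (j0 + 1) ∉ A ∧ ∀ j ≥ j0 + 1, w j ∉ A := by
    classical
    have h1 := Nat.find_spec hfarw
    have h2 : Nat.find hfarw ≠ 0 := by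
      intro h
      exact h1 0 (by omega) (by rw [hw0]; exact hvA)
    obtain ⟨m, hm⟩ := Nat.exists_eq_succ_of_ne_zero h2
    have h3 := Nat.find_min hfarw (m := m) (by omega)
    push Not at h3
    obtain ⟨j, hj, hjA⟩ := h3
    have h4 : j = m := by
      by_contra hne
      exact h1 j (by omega) hjA
    subst h4
    refine ⟨j, hjA, h1 _ (by omega), fun i hi => h1 i (by omega)⟩
  -- a boundary site in the component
  obtain ⟨b, hb, hbA⟩ : ∃ b ∈ GF.Fin.Boundary (D δ), b ∈ A := by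
    -- first exit
    classical
    have hex : ∃ j, w (j + 1) ∉ A := ⟨j0, hj0A⟩
    have h1 := Nat.find_spec hex
    have h2 : ∀ j ≤ Nat.find hex, w j ∈ A := by
      intro j hj
      cases j with
      | zero => rw [hw0]; exact hvA
      | succ j =>
        have := Nat.find_min hex (m := j) (by omega)
        push Not at this
        exact this
    have h3 := (hstep _ (h2 _ le_rfl) h1).1
    have hex2 : ∃ j, w j ∈ D δ := ⟨_, h3⟩
    have h4 := Nat.find_spec hex2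
    have h5 : Nat.find hex2 ≠ 0 := by
      intro h
      rw [h, hw0] at h4
      exact hvD h4
    obtain ⟨m, hm⟩ := Nat.exists_eq_succ_of_ne_zero h5
    have h6 : w m ∉ D δ := Nat.find_min hex2 (by omega)
    have h7 : Nat.find hex2 ≤ Nat.find hex := Nat.find_min' hex2 h3
    rw [hm] at h4 h7
    exact ⟨w (m + 1), ⟨h4, w m, hwadj m, h6⟩, h2 _ h7⟩
  -- a boundary site outside the component
  obtain ⟨b', hb', hbA'⟩ : ∃ b ∈ GF.Fin.Boundary (D δ), b ∉ A := by
    classical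
    have h1 := (hstep _ hj0 hj0A).2
    have hex : ∃ j, w (j0 + 1 + j) ∉ D δ := by
      by_contra hall
      push Not at hall
      have hinj : Function.Injective fun j : ℕ => w (j0 + 1 + j) := by
        intro a c hac
        rw [hw] at hac
        simp only [Prod.mk.injEq, add_right_inj, and_true] at hac
        omega
      exact not_injective_infinite_finite (fun j : ℕ => (⟨w (j0 + 1 + j), hall j⟩ : {u // u ∈ D δ}))
        (fun a c hac => hinj (congrArg Subtype.val hac))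
    have h2 := Nat.find_spec hex
    have h3 : Nat.find hex ≠ 0 := by
      intro h
      rw [h] at h2
      exact h2 h1
    obtain ⟨m, hm⟩ := Nat.exists_eq_succ_of_ne_zero h3
    have h4 := Nat.find_min hex (m := m) (by omega)
    push Not at h4
    rw [hm] at h2
    refine ⟨w (j0 + 1 + m), ⟨h4, w (j0 + 1 + m + 1), adj_symm (hwadj _), h2⟩, hj0A' _ (by omega)⟩
  obtain ⟨c, c', hc, hcc, hcA, hcA'⟩ := circ_step (heven δ hδ0) hb hbA hb' hbA'
  obtain ⟨p, hp, h3, h4⟩ := leave_comp ((hAmem _).1 hcA) (fun h => hcA' ((hAmem _).2 h))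
  have h5 := pt_dia (δ := δ) hcc
  rw [habs] at h5
  obtain ⟨_, u, hu, huD⟩ := hc
  have h6 := pt_dist (δ := δ) hu
  rw [habs] at h6
  have h7 := dist_triangle (pt δ u) (pt δ c) p
  exact huD (hin' u p hp (by linarith))

theorem fil_of_approx {D : ℝ → Finset V} {Ω : Set Pl} (hΩ : IsOpen Ω) (hD : GF.Fin.Approximates D Ω) :
    Fil Ω :=
  fil_of_even hΩ hD.even (fun Q hQ hQΩ => hD.inner Q hQ hQΩ) fun z hz ε hε => hD.outer z hz ε hε

end DV
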