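import Pool.Agent.Helper23.DV.Cut
import Pool.Agent.Helper90.DV.EvD
import Pool.Agent.Helper97.DV.Fl

/-!
# Project DV (MP_973bc8_pr): the cut domains satisfy the hypotheses of the bounded theorem
-/

open Finset RP4 Filter Topology

namespace DV

open GF (Pl Cc md prD lin)

/-- the sites at distance more than `M` from the origin -/
lemma far_iff {M δ : ℝ} (hδ : 0 < δ) (v : V) : M < ‖pt δ v‖ ↔ v ∉ Sq 0 ⌊M / δ⌋ := by
  have h : ∀ a : ℤ, |δ * (a : ℝ)| ≤ M ↔ |a - 0| ≤ ⌊M / δ⌋ := by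
    intro a
    rw [sub_zero, Int.le_floor, Int.cast_abs, le_div_iff₀ hδ, abs_mul, abs_of_pos hδ, mul_comm]
  rw [← not_le, not_iff_not]
  unfold pt
  rw [Prod.norm_def, max_le_iff, Real.norm_eq_abs, Real.norm_eq_abs]
  constructor
  · rintro ⟨h1, h2⟩
    exact ⟨(h _).1 h1, (h _).1 h2⟩
  · rintro ⟨h1, h2⟩
    exact ⟨(h _).2 h1, (h _).2 h2⟩

lemma far_con {M δ : ℝ} (hδ : 0 < δ) {u v : V} (hu : M < ‖pt δ u‖) (hv : M < ‖pt δ v‖) :
    Con {w : V | M < ‖pt δ w‖} u v := by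
  have h1 := Sq_compl_cnn (0 : V) ⌊M / δ⌋ u ((far_iff hδ u).1 hu) v ((far_iff hδ v).1 hv)
  exact h1.mono (fun _ _ h => h) fun w hw => (far_iff hδ w).2 hw

/-- there are far sites off `D` -/
lemma exists_far (M : ℝ) {δ : ℝ} (hδ : 0 < δ) (D : Finset V) : ∃ z, z ∉ D ∧ M < ‖pt δ z‖ := by
  have hinf : {v : V | ⌊M / δ⌋ < v.1}.Infinite := by
    refine Set.infinite_of_injective_forall_mem (f := fun j : ℕ => ((⌊M / δ⌋ + 1 + j, 0) : V)) ?_ ?_
    · intro a b hab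
      have h1 := congrArg Prod.fst hab
      simp only at h1
      omega
    · intro j
      show ⌊M / δ⌋ < ⌊M / δ⌋ + 1 + (j : ℤ)
      omega
  obtain ⟨z, hz, hzD⟩ := hinf.exists_notMem_finset D
  refine ⟨z, hzD, (far_iff hδ z).2 ?_⟩
  rintro ⟨h1, -⟩
  have h2 : ⌊M / δ⌋ < z.1 := hz
  have h3 := le_abs_self (z.1 - (0 : V).1)
  have h4 : (0 : V).1 = 0 := rfl
  rw [h4] at h1 h3
  omega

lemma OO_cutD (M δ : ℝ) (D : Finset V) : OO D (bdry D) ⊆ OO (cutD M δ D) (bdry (cutD M δ D)) := by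
  intro v hv
  by_cases h1 : v ∈ cutD M δ D
  · right
    rcases hv with h2 | h2
    · exact absurd (cutD_sub M δ D h1) h2
    · obtain ⟨-, u, hu, hu'⟩ := mem_bdry.1 h2
      exact mem_bdry.2 ⟨h1, u, hu, fun h => hu' (cutD_sub M δ D h)⟩
  · exact Or.inl h1

theorem ko_cutD {M δ : ℝ} (hδ : 0 < δ) {D : Finset V} (hD : KO D) : KO (cutD M δ D) := by
  classical
  refine ⟨cutD_par M δ D, ?_⟩
  set E := cutD M δ D with hE
  have hfar : {w : V | M < ‖pt δ w‖} ⊆ OO E (bdry E) := fun w hw => Or.inl fun h =>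
    absurd (mem_cutD h).2 (not_le.2 hw)
  -- the sites off `E`
  have key1 : ∀ z, z ∉ E → ∃ z', M < ‖pt δ z'‖ ∧ KCon (OO E (bdry E)) z z' := by
    intro z hz
    by_cases hzD : z ∈ D
    · by_cases hzM : ‖pt δ z‖ ≤ M
      · have h1 : ¬ (Even (par z) ∨ z ∉ bdry (D.filter fun x => ‖pt δ x‖ ≤ M)) := by
          intro h1
          exact hz (mem_evn.2 ⟨Finset.mem_filter.2 ⟨hzD, hzM⟩, h1⟩)
        push Not at h1
        obtain ⟨-, u, hu, hu'⟩ := mem_bdry.1 h1.2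
        have huD : u ∈ D := by
          by_contra huD
          have h2 := hD.par z (mem_bdry.2 ⟨hzD, u, hu, huD⟩)
          rw [sub_zero] at h2
          exact absurd h2 (by simpa using h1.1)
        have huM : M < ‖pt δ u‖ := by
          by_contra h2
          exact hu' (Finset.mem_filter.2 ⟨huD, not_lt.1 h2⟩)
        exact ⟨u, huM, Jn.single (kng_symm (adj_kng hu)) (Or.inl hz) (hfar huM)⟩
      · exact ⟨z, not_le.1 hzM, Jn.refl (Or.inl hz)⟩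
    · obtain ⟨z', hz'D, hz'M⟩ := exists_far M hδ D
      exact ⟨z', hz'M, (hD.con z (Or.inl hzD) z' (Or.inl hz'D)).mono (fun _ _ h => h) (OO_cutD M δ D)⟩
  have key : ∀ z ∈ OO E (bdry E), ∃ z', M < ‖pt δ z'‖ ∧ KCon (OO E (bdry E)) z z' := by
    intro z hz
    rcases id hz with h | h
    · exact key1 z h
    · obtain ⟨-, u, hu, hu'⟩ := mem_bdry.1 h
      obtain ⟨z', h1, h2⟩ := key1 u hu'
      exact ⟨z', h1, (Jn.single (kng_symm (adj_kng hu)) hz h2.left).trans h2⟩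
  intro z hz z' hz'
  obtain ⟨w, hw, h1⟩ := key z hz
  obtain ⟨w', hw', h2⟩ := key z' hz'
  exact (h1.trans ((far_con hδ hw hw').mono (fun _ _ => adj_kng) hfar)).trans (KCon.symm' h2)

/-- compact sets are covered by the cut domains -/
lemma inner_cutD {D : ℝ → Finset V} (hpar : ∀ᶠ δ in 𝓝[>] (0 : ℝ), BdryPar (D δ) 0) {Q : Set Pl}
    (hin : ∀ᶠ δ in 𝓝[>] (0 : ℝ), ∀ x, pt δ x ∈ Q → x ∈ D δ) {M : ℝ} (hM : ∀ z ∈ Q, ‖z‖ + 1 ≤ M) :
    ∀ᶠ δ in 𝓝[>] (0 : ℝ), ∀ x, pt δ x ∈ Q → x ∈ cutD M δ (D δ) := by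
  have hδ1 : ∀ᶠ δ in 𝓝[>] (0 : ℝ), δ < 1 := mem_nhdsWithin_of_mem_nhds (gt_mem_nhds one_pos)
  filter_upwards [hpar, hin, hδ1, self_mem_nhdsWithin] with δ h1 h2 h3 h4 x hx
  have h4' : 0 < δ := h4
  exact mem_cutD_of h1 h4'.le (h2 x hx) (by linarith [hM _ hx])

end DV
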